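import Pool.Agent.P8H99.GO.Stm

/-!
# Project GO, package STR: the explicit family is connected
-/

set_option autoImplicit false
set_option linter.all false

namespace Pool.Agent.P8H4.GO

open Finset Pool.Agent.P8H99.GO

section
variable {k n : ℕ} {M X : Finset (Fin n)} {p : Fin n}

theorem lev0 (h : (p : ℕ) = 0) : lev k M X p = 0 := by
  unfold lev; rw [if_pos h]

theorem lev1 (h : (p : ℕ) = 1) : lev k M X p = 1 := by
  unfold lev; rw [if_neg (by omega), if_pos h]

theorem levs (h2 : 2 ≤ (p : ℕ)) (h : (p : ℕ) < k - 2) : lev k M X p = p + 2 := by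
  unfold lev; rw [if_neg (by omega), if_neg (by omega), if_pos h]

theorem levX (hk : 5 ≤ k) (h : k - 2 ≤ (p : ℕ)) (hX : p ∈ X) : lev k M X p = 1 := by
  unfold lev; rw [if_neg (by omega), if_neg (by omega), if_neg (by omega), if_pos hX]

theorem levM (hk : 5 ≤ k) (h : k - 2 ≤ (p : ℕ)) (hX : p ∉ X) (hM : p ∈ M) :
    lev k M X p = 2 := by
  unfold lev
  rw [if_neg (by omega), if_neg (by omega), if_neg (by omega), if_neg hX, if_pos hM]

theorem levR (hk : 5 ≤ k) (h : k - 2 ≤ (p : ℕ)) (hX : p ∉ X) (hM : p ∉ M) :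
    lev k M X p = 3 := by
  unfold lev
  rw [if_neg (by omega), if_neg (by omega), if_neg (by omega), if_neg hX, if_neg hM]

theorem cov0 (h : (p : ℕ) = 0) : cov k M X p = {∅} := by
  unfold cov; rw [if_pos h]

theorem cov1 (h : (p : ℕ) = 1) : cov k M X p = {spe n 0} := by
  unfold cov; rw [if_neg (by omega), if_pos h]

theorem cov2 (h : (p : ℕ) = 2) : cov k M X p = (W k n \ (M ∪ X)).powerset.erase ∅ := by
  unfold cov; rw [if_neg (by omega), if_neg (by omega), if_pos h]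

theorem covs (h3 : 3 ≤ (p : ℕ)) (h : (p : ℕ) < k - 2) : cov k M X p = {spe n (p - 1)} := by
  unfold cov; rw [if_neg (by omega), if_neg (by omega), if_neg (by omega), if_pos h]

theorem covX (hk : 5 ≤ k) (h : k - 2 ≤ (p : ℕ)) (hX : p ∈ X) :
    cov k M X p = {∅, spe n 0} := by
  unfold cov
  rw [if_neg (by omega), if_neg (by omega), if_neg (by omega), if_neg (by omega), if_pos hX]

theorem covM (hk : 5 ≤ k) (h : k - 2 ≤ (p : ℕ)) (hX : p ∉ X) (hM : p ∈ M) :
    cov k M X p = (X ∪ spe n 1).powerset.erase ∅ := by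
  unfold cov
  rw [if_neg (by omega), if_neg (by omega), if_neg (by omega), if_neg (by omega), if_neg hX,
    if_pos hM]

theorem covR (hk : 5 ≤ k) (h : k - 2 ≤ (p : ℕ)) (hX : p ∉ X) (hM : p ∉ M) :
    cov k M X p = M.powerset.erase ∅ := by
  unfold cov
  rw [if_neg (by omega), if_neg (by omega), if_neg (by omega), if_neg (by omega), if_neg hX,
    if_neg hM]

theorem mem_spe {i : ℕ} {q : Fin n} : q ∈ spe n i ↔ (q : ℕ) = i := by
  unfold spe; simp

theorem mem_W {q : Fin n} : q ∈ W k n ↔ k - 2 ≤ (q : ℕ) := by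
  unfold W; simp

end

theorem str : S_STR := by
  intro k n h0 M X c hk hkn hM hX hdis hMne hRne hc hL
  have dX : ∀ {q : Fin n}, q ∈ M → q ∉ X := fun hq hq' => (Finset.disjoint_left.1 hdis) hq hq'
  have WM : ∀ {q : Fin n}, q ∈ M → k - 2 ≤ (q : ℕ) := fun hq => mem_W.1 (hM hq)
  have WX : ∀ {q : Fin n}, q ∈ X → k - 2 ≤ (q : ℕ) := fun hq => mem_W.1 (hX hq)
  -- the cases
  have cases5 : ∀ p : Fin n, (p : ℕ) = 0 ∨ (p : ℕ) = 1 ∨ (p : ℕ) = 2 ∨
      (3 ≤ (p : ℕ) ∧ (p : ℕ) < k - 2) ∨ (k - 2 ≤ (p : ℕ) ∧ p ∈ X) ∨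
      (k - 2 ≤ (p : ℕ) ∧ p ∉ X ∧ p ∈ M) ∨ (k - 2 ≤ (p : ℕ) ∧ p ∉ X ∧ p ∉ M) := by
    intro p
    by_cases h1 : k - 2 ≤ (p : ℕ)
    · by_cases h2 : p ∈ X
      · exact Or.inr (Or.inr (Or.inr (Or.inr (Or.inl ⟨h1, h2⟩))))
      · by_cases h3 : p ∈ M
        · exact Or.inr (Or.inr (Or.inr (Or.inr (Or.inr (Or.inl ⟨h1, h2, h3⟩)))))
        · exact Or.inr (Or.inr (Or.inr (Or.inr (Or.inr (Or.inr ⟨h1, h2, h3⟩)))))
    · omega
  have c1 : ∀ p : Fin n, (p : ℕ) = 1 → c p = spe n 0 := fun p h => by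
    have := hc p; rw [cov1 h, mem_singleton] at this; exact this
  have c2 : ∀ p : Fin n, (p : ℕ) = 2 → (c p).Nonempty ∧ c p ⊆ W k n \ (M ∪ X) := fun p h => by
    have := hc p
    rw [cov2 h, mem_erase, mem_powerset] at this
    exact ⟨Finset.nonempty_iff_ne_empty.2 this.1, this.2⟩
  have cs : ∀ p : Fin n, 3 ≤ (p : ℕ) → (p : ℕ) < k - 2 → c p = spe n (p - 1) := fun p h h' => by
    have := hc p; rw [covs h h', mem_singleton] at this; exact this
  have cM : ∀ p : Fin n, k - 2 ≤ (p : ℕ) → p ∉ X → p ∈ M →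
      (c p).Nonempty ∧ c p ⊆ X ∪ spe n 1 := fun p h h1 h2 => by
    have := hc p
    rw [covM hk h h1 h2, mem_erase, mem_powerset] at this
    exact ⟨Finset.nonempty_iff_ne_empty.2 this.1, this.2⟩
  have cR : ∀ p : Fin n, k - 2 ≤ (p : ℕ) → p ∉ X → p ∉ M →
      (c p).Nonempty ∧ c p ⊆ M := fun p h h1 h2 => by
    have := hc p
    rw [covR hk h h1 h2, mem_erase, mem_powerset] at this
    exact ⟨Finset.nonempty_iff_ne_empty.2 this.1, this.2⟩
  refine ⟨?_, ?_, ?_, ?_⟩
  · -- the levels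
    intro p x hx
    rcases cases5 p with h | h | h | ⟨h, h'⟩ | ⟨h, h'⟩ | ⟨h, h', h''⟩ | ⟨h, h', h''⟩
    · have := hc p
      rw [cov0 h, mem_singleton] at this
      rw [this] at hx
      exact absurd hx (Finset.notMem_empty _)
    · rw [c1 p h, mem_spe] at hx
      rw [lev1 h, lev0 hx]
    · have hx2 := (c2 p h).2 hx
      rw [mem_sdiff, mem_union, mem_W] at hx2
      rw [levR hk hx2.1 (fun h => hx2.2 (Or.inr h)) (fun h => hx2.2 (Or.inl h)),
        levs (by omega) (by omega), h]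
    · rw [cs p h h', mem_spe] at hx
      rw [levs (p := x) (by omega) (by omega), levs (p := p) (by omega) h']
      omega
    · have := hc p
      rw [covX hk h h', mem_insert, mem_singleton] at this
      rcases this with h2 | h2
      · rw [h2] at hx
        exact absurd hx (Finset.notMem_empty _)
      · rw [h2, mem_spe] at hx
        rw [lev0 hx, levX hk h h']
    · have hx2 := (cM p h h' h'').2 hx
      rw [levM hk h h' h'']
      rcases mem_union.1 hx2 with h3 | h3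
      · rw [levX hk (WX h3) h3]
      · rw [lev1 (mem_spe.1 h3)]
    · have hx2 := (cR p h h' h'').2 hx
      rw [levR hk h h' h'', levM hk (WM hx2) (dX hx2) hx2]
  · exact lev0 rfl
  · -- connected
    have e0 : ∀ p : Fin n, (p : ℕ) = 0 → Relation.EqvGen (fun x y => x ∈ c y) p ⟨0, h0⟩ := by
      intro p h
      have : p = ⟨0, h0⟩ := Fin.ext h
      rw [this]
      exact Relation.EqvGen.refl _
    have up : ∀ p x : Fin n, x ∈ c p → Relation.EqvGen (fun x y => x ∈ c y) x ⟨0, h0⟩ →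
        Relation.EqvGen (fun x y => x ∈ c y) p ⟨0, h0⟩ := fun p x hx h =>
      Relation.EqvGen.trans _ _ _ (Relation.EqvGen.symm _ _ (Relation.EqvGen.rel _ _ hx)) h
    have e1 : ∀ p : Fin n, (p : ℕ) = 1 → Relation.EqvGen (fun x y => x ∈ c y) p ⟨0, h0⟩ := by
      intro p h
      refine up p ⟨0, h0⟩ ?_ (e0 _ rfl)
      rw [c1 p h, mem_spe]
    have eX : ∀ p ∈ X, Relation.EqvGen (fun x y => x ∈ c y) p ⟨0, h0⟩ := by
      intro p hp
      obtain ⟨q, hq, h1, u, hu, h2⟩ := hL p hp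
      have h3 : Relation.EqvGen (fun x y => x ∈ c y) q ⟨0, h0⟩ := up q u hu (e1 u h2)
      exact Relation.EqvGen.trans _ _ _ (Relation.EqvGen.rel _ _ h1) h3
    have eM : ∀ p ∈ M, Relation.EqvGen (fun x y => x ∈ c y) p ⟨0, h0⟩ := by
      intro p hp
      obtain ⟨⟨x, hx⟩, h2⟩ := cM p (WM hp) (dX hp) hp
      rcases mem_union.1 (h2 hx) with h3 | h3
      · exact up p x hx (eX x h3)
      · exact up p x hx (e1 x (mem_spe.1 h3))
    have eR : ∀ p : Fin n, k - 2 ≤ (p : ℕ) → p ∉ X → p ∉ M →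
        Relation.EqvGen (fun x y => x ∈ c y) p ⟨0, h0⟩ := by
      intro p h h' h''
      obtain ⟨⟨x, hx⟩, h2⟩ := cR p h h' h''
      exact up p x hx (eM x (h2 hx))
    have e2 : ∀ p : Fin n, (p : ℕ) = 2 → Relation.EqvGen (fun x y => x ∈ c y) p ⟨0, h0⟩ := by
      intro p h
      obtain ⟨⟨x, hx⟩, h2⟩ := c2 p h
      have hx2 := h2 hx
      rw [mem_sdiff, mem_union, mem_W] at hx2
      exact up p x hx (eR x hx2.1 (fun h => hx2.2 (Or.inr h)) (fun h => hx2.2 (Or.inl h)))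
    have es : ∀ j : ℕ, ∀ p : Fin n, (p : ℕ) = j + 2 → (p : ℕ) < k - 2 →
        Relation.EqvGen (fun x y => x ∈ c y) p ⟨0, h0⟩ := by
      intro j
      induction j with
      | zero => intro p h _; exact e2 p h
      | succ j ih =>
        intro p h h'
        have hlt : (p : ℕ) - 1 < n := by have := p.isLt; omega
        refine up p ⟨(p : ℕ) - 1, hlt⟩ ?_ (ih ⟨(p : ℕ) - 1, hlt⟩ ?_ ?_)
        · rw [cs p (by omega) h', mem_spe]
        · show (p : ℕ) - 1 = j + 2
          omega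
        · show (p : ℕ) - 1 < k - 2
          omega
    intro p
    rcases cases5 p with h | h | h | ⟨h, h'⟩ | ⟨h, h'⟩ | ⟨h, h', h''⟩ | ⟨h, h', h''⟩
    · exact e0 p h
    · exact e1 p h
    · exact e2 p h
    · exact es ((p : ℕ) - 2) p (by omega) h'
    · exact eX p h'
    · exact eM p h''
    · exact eR p h h' h''
  · -- the range
    ext v
    simp only [Set.mem_range, Set.mem_Iio]
    constructor
    · rintro ⟨p, rfl⟩
      rcases cases5 p with h | h | h | ⟨h, h'⟩ | ⟨h, h'⟩ | ⟨h, h', h''⟩ | ⟨h, h', h''⟩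
      · rw [lev0 h]; omega
      · rw [lev1 h]; omega
      · rw [levs (by omega) (by omega)]; omega
      · rw [levs (by omega) (by omega)]; omega
      · rw [levX hk h h']; omega
      · rw [levM hk h h' h'']; omega
      · rw [levR hk h h' h'']; omega
    · intro hv
      rcases (by omega : v = 0 ∨ v = 1 ∨ v = 2 ∨ v = 3 ∨ 4 ≤ v) with h | h | h | h | h
      · exact ⟨⟨0, h0⟩, by rw [lev0 rfl, h]⟩
      · exact ⟨⟨1, by omega⟩, by rw [lev1 rfl, h]⟩
      · obtain ⟨q, hq⟩ := hMne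
        exact ⟨q, by rw [levM hk (WM hq) (dX hq) hq, h]⟩
      · obtain ⟨q, hq⟩ := hRne
        rw [mem_sdiff, mem_union, mem_W] at hq
        exact ⟨q, by rw [levR hk hq.1 (fun h => hq.2 (Or.inr h)) (fun h => hq.2 (Or.inl h)), h]⟩
      · refine ⟨⟨v - 2, by omega⟩, ?_⟩
        rw [levs (by show 2 ≤ v - 2; omega) (by show v - 2 < k - 2; omega)]
        show v - 2 + 2 = v
        omega

end Pool.Agent.P8H4.GO
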